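import Pool.Agent.H37.CNS.Stmts

set_option autoImplicit false

namespace Pool.CND

open Finset Matrix

/-- the underlying type of the central extension -/
structure TwG (p : ℕ) (G : Type) : Type where
  /-- the group component -/
  fst : G
  /-- the central component -/
  snd : ZMod p

namespace TwG

/-- pairs -/
def equivProd (p : ℕ) (G : Type) : TwG p G ≃ G × ZMod p where
  toFun a := (a.1, a.2)
  invFun a := ⟨a.1, a.2⟩
  left_inv _ := rfl
  right_inv _ := rfl

/-- the group structure of the bilinear cocycle -/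
@[reducible] def grp (p : ℕ) (G : Type) [Group G] (β : G → G → ZMod p)
    (h1 : ∀ a b c : G, β (a * b) c = β a c + β b c)
    (h2 : ∀ a b c : G, β a (b * c) = β a b + β a c) : Group (TwG p G) :=
  letI : Mul (TwG p G) := ⟨fun a b => ⟨a.1 * b.1, a.2 + b.2 + β a.1 b.1⟩⟩
  letI : One (TwG p G) := ⟨⟨1, 0⟩⟩
  letI : Inv (TwG p G) := ⟨fun a => ⟨a.1⁻¹, -a.2 + β a.1 a.1⟩⟩
  have hl : ∀ c : G, β 1 c = 0 := fun c => by
    have := h1 1 1 c
    rw [one_mul] at this
    simpa using this
  have hr : ∀ c : G, β c 1 = 0 := fun c => by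
    have := h2 c 1 1
    rw [one_mul] at this
    simpa using this
  Group.ofLeftAxioms
    (fun a b c => by
      show (⟨a.1 * b.1 * c.1, a.2 + b.2 + β a.1 b.1 + c.2 + β (a.1 * b.1) c.1⟩ : TwG p G) =
        ⟨a.1 * (b.1 * c.1), a.2 + (b.2 + c.2 + β b.1 c.1) + β a.1 (b.1 * c.1)⟩
      rw [h1, h2, mul_assoc]
      congr 1
      ring)
    (fun a => by
      show (⟨1 * a.1, 0 + a.2 + β 1 a.1⟩ : TwG p G) = a
      rw [hl, one_mul, zero_add, add_zero])
    (fun a => by
      show (⟨a.1⁻¹ * a.1, -a.2 + β a.1 a.1 + a.2 + β a.1⁻¹ a.1⟩ : TwG p G) = ⟨1, 0⟩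
      have h3 := h1 a.1⁻¹ a.1 a.1
      rw [inv_mul_cancel, hl] at h3
      rw [inv_mul_cancel]
      congr 1
      have h4 : β a.1⁻¹ a.1 = - β a.1 a.1 := by
        rw [eq_neg_iff_add_eq_zero]
        exact h3.symm
      rw [h4]
      ring)

end TwG

theorem twg_thm : S_TWG := by
  intro p G _ _ β hp h1 h2
  haveI : Fact p.Prime := ⟨hp⟩
  letI : Group (TwG p G) := TwG.grp p G β h1 h2
  have hmul : ∀ a b : TwG p G, a * b = ⟨a.1 * b.1, a.2 + b.2 + β a.1 b.1⟩ := fun a b => rfl
  have hone : (1 : TwG p G) = ⟨1, 0⟩ := rfl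
  have hl : ∀ c : G, β 1 c = 0 := fun c => by
    have := h1 1 1 c
    rw [one_mul] at this
    simpa using this
  have hr : ∀ c : G, β c 1 = 0 := fun c => by
    have := h2 c 1 1
    rw [one_mul] at this
    simpa using this
  have hpow : ∀ n : ℕ, (⟨1, 1⟩ : TwG p G) ^ n = ⟨1, (n : ZMod p)⟩ := by
    intro n
    induction n with
    | zero => rw [pow_zero, hone]; simp
    | succ n ih =>
      rw [pow_succ, ih, hmul]
      simp [hl]
  let π : TwG p G →* G :=
    { toFun := fun a => a.1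
      map_one' := rfl
      map_mul' := fun a b => rfl }
  have hz : ∀ a : TwG p G, π a = 1 ↔ a ∈ Subgroup.zpowers (⟨1, 1⟩ : TwG p G) := by
    intro a
    constructor
    · intro ha
      have ha1 : a.1 = 1 := ha
      refine ⟨(a.2.val : ℤ), ?_⟩
      show (⟨1, 1⟩ : TwG p G) ^ ((a.2.val : ℕ) : ℤ) = a
      rw [zpow_natCast, hpow]
      obtain ⟨g, c⟩ := a
      simp only at ha1
      subst ha1
      simp
    · intro ha
      obtain ⟨n, hn⟩ := ha
      have hn' : (⟨1, 1⟩ : TwG p G) ^ n = a := hn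
      rw [← hn', map_zpow]
      show (1 : G) ^ n = 1
      exact one_zpow n
  refine ⟨TwG p G, inferInstance, Finite.of_equiv _ (TwG.equivProd p G).symm, π, ⟨1, 1⟩,
    fun a => a.2, ?_, hz, ?_, ?_, rfl, fun a b => rfl, ?_, ?_, ?_⟩
  · intro g
    exact ⟨⟨g, 0⟩, rfl⟩
  · apply orderOf_eq_prime
    · rw [hpow, hone]
      simp
    · rw [hone]
      intro h
      have := congrArg TwG.snd h
      exact one_ne_zero this
  · intro a
    rw [hmul, hmul]
    simp only [hl, hr, mul_one, one_mul, add_zero]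
    congr 1
    ring
  · rintro ⟨g, c⟩ hg hc
    have hg' : g = 1 := hg
    have hc' : c = 0 := hc
    rw [hone, hg', hc']
  · intro g c
    exact ⟨⟨g, c⟩, rfl, rfl⟩
  · rw [Nat.card_congr (TwG.equivProd p G), Nat.card_prod, Nat.card_eq_fintype_card (α := ZMod p),
      ZMod.card, mul_comm]

end Pool.CND
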